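import Pool.Agent.Q19.HO.Stm

/-!
Project HO, job MAL: a linear bijection of the imaginary octonions which preserves the commutator
extends to an automorphism of the octonions.
-/

set_option autoImplicit false

namespace Pool.Agent.Q13.HO.MAL

open Pool.Agent.Q19.HO

variable {K : Type} [Field K]

/-- twice the bilinear form of the norm on the imaginary octonions -/
def bB (x y : Oct K) : K :=
  -(2 * x 0 * y 0 + x 2 * y 5 + x 3 * y 6 + x 4 * y 7 + x 5 * y 2 + x 6 * y 3 + x 7 * y 4)

theorem im_comm (x y : Oct K) : Im (x * y - y * x) := by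
  unfold Im
  rw [sub_ap, sub_ap, mul0, mul0, mul1, mul1]
  ring

theorem anti {x y : Oct K} (hx : Im x) (hy : Im y) : x * y + y * x = -(bB x y) • (1 : Oct K) := by
  have hx1 : x 1 = -x 0 := by unfold Im at hx; linear_combination hx
  have hy1 : y 1 = -y 0 := by unfold Im at hy; linear_combination hy
  apply oct_ext
  intro i
  fin_cases i <;> simp [mul0, mul1, mul2, mul3, mul4, mul5, mul6, mul7, smul_ap, add_ap, one0, one1,
    one2, one3, one4, one5, one6, one7, bB, hx1, hy1] <;> ring

theorem double {x y : Oct K} (hx : Im x) (hy : Im y) :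
    x * (x * y - y * x) - (x * y - y * x) * x = (2 * bB x y) • x - (2 * bB x x) • y := by
  have hx1 : x 1 = -x 0 := by unfold Im at hx; linear_combination hx
  have hy1 : y 1 = -y 0 := by unfold Im at hy; linear_combination hy
  apply oct_ext
  intro i
  fin_cases i <;> simp [mul0, mul1, mul2, mul3, mul4, mul5, mul6, mul7, smul_ap, add_ap, sub_ap, bB,
    hx1, hy1] <;> ring

/-- a basis vector -/
def e2 : Oct K := (![0, 0, 1, 0, 0, 0, 0, 0] : Fin 8 → K)

/-- a basis vector -/
def e3 : Oct K := (![0, 0, 0, 1, 0, 0, 0, 0] : Fin 8 → K)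

theorem exists_indep (x : Oct K) : ∃ y : Oct K, Im y ∧ ∀ c : K, y ≠ c • x := by
  by_cases h : ∀ c : K, (e2 : Oct K) ≠ c • x
  · refine ⟨e2, ?_, h⟩
    show (0 : K) + 0 = 0
    ring
  · push Not at h
    obtain ⟨a, ha⟩ := h
    refine ⟨e3, ?_, ?_⟩
    · show (0 : K) + 0 = 0
      ring
    · intro c hc
      have h1 : (1 : K) = a * x 2 := congrFun ha 2
      have h2 : (0 : K) = c * x 2 := congrFun hc 2
      have h3 : (1 : K) = c * x 3 := congrFun hc 3
      have h4 : x 2 ≠ 0 := by
        intro h0
        rw [h0, mul_zero] at h1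
        exact one_ne_zero h1
      have h5 : c = 0 := (mul_eq_zero.1 h2.symm).resolve_right h4
      rw [h5, zero_mul] at h3
      exact one_ne_zero h3

theorem im_smul {x : Oct K} (hx : Im x) (r : K) : Im (r • x) := by
  unfold Im at hx ⊢
  rw [smul_ap, smul_ap, ← mul_add, hx, mul_zero]

theorem im_sub {x y : Oct K} (hx : Im x) (hy : Im y) : Im (x - y) := by
  unfold Im at hx hy ⊢
  rw [sub_ap, sub_ap]
  linear_combination hx - hy

theorem form (h2 : (2 : K) ≠ 0) {T : Oct K →ₗ[K] Oct K} (hI : ∀ x, Im x → Im (T x))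
    (h0 : ∀ x, Im x → T x = 0 → x = 0)
    (hc : ∀ x y, Im x → Im y → T (x * y - y * x) = T x * T y - T y * T x) {x y : Oct K}
    (hx : Im x) (hy : Im y) : bB (T x) (T y) = bB x y := by
  have key : ∀ z, Im z → (bB (T x) (T x) - bB x x) • T z = (bB (T x) (T z) - bB x z) • T x := by
    intro z hz
    have h3 := hc x (x * z - z * x) hx (im_comm x z)
    rw [hc x z hx hz, double hx hz, double (hI x hx) (hI z hz), map_sub, map_smul, map_smul] at h3
    have h4 : (2 : K) • ((bB (T x) (T x) - bB x x) • T z) =
        (2 : K) • ((bB (T x) (T z) - bB x z) • T x) := by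
      rw [sub_smul, sub_smul, smul_sub, smul_sub, smul_smul, smul_smul, smul_smul, smul_smul]
      have h5 : (2 * bB (T x) (T x)) • T z =
          (2 * bB (T x) (T z)) • T x - ((2 * bB x z) • T x - (2 * bB x x) • T z) := by
        rw [h3]; abel
      rw [h5]; abel
    have h6 := congrArg (fun w => (2 : K)⁻¹ • w) h4
    simp only [smul_smul] at h6
    simpa [h2, ← mul_assoc, inv_mul_cancel₀ h2] using h6
  by_cases hx0 : x = 0
  · subst hx0
    rw [map_zero]
    simp [bB, zero_ap]
  · obtain ⟨z, hz, hzx⟩ := exists_indep x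
    have hTx : T x ≠ 0 := fun h => hx0 (h0 x hx h)
    have h1 : bB (T x) (T x) - bB x x = 0 := by
      by_contra hne
      have h3 := key z hz
      have h4 : T (z - ((bB (T x) (T x) - bB x x)⁻¹ * (bB (T x) (T z) - bB x z)) • x) = 0 := by
        rw [map_sub, map_smul, ← smul_smul, ← h3, smul_smul, inv_mul_cancel₀ hne, one_smul, sub_self]
      have h5 := h0 _ (im_sub hz (im_smul hx _)) h4
      exact hzx _ (sub_eq_zero.1 h5)
    have h3 := key y hy
    rw [h1, zero_smul] at h3
    rcases smul_eq_zero.1 h3.symm with h | h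
    · exact sub_eq_zero.1 h
    · exact absurd h hTx

theorem t : Pool.Agent.Q19.HO.S_MAL := by
  intro K _ h2 T hI h0 hc
  -- the imaginary part
  have hIm : ∀ z : Oct K, Im (z - ((2 : K)⁻¹ * (z 0 + z 1)) • (1 : Oct K)) := by
    intro z
    unfold Im
    rw [sub_ap, sub_ap, smul_ap, smul_ap, one0, one1]
    field_simp
    ring
  let tr : Oct K →ₗ[K] K :=
    { toFun := fun z => (2 : K)⁻¹ * (z 0 + z 1)
      map_add' := fun z w => by rw [add_ap, add_ap]; ring
      map_smul' := fun r z => by rw [smul_ap, smul_ap, RingHom.id_apply, smul_eq_mul]; ring }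
  have htr : ∀ z : Oct K, tr z = (2 : K)⁻¹ * (z 0 + z 1) := fun z => rfl
  have hIm' : ∀ z : Oct K, Im (z - tr z • (1 : Oct K)) := hIm
  have htr0 : ∀ z : Oct K, Im z → tr z = 0 := by
    intro z hz
    rw [htr]
    unfold Im at hz
    rw [hz, mul_zero]
  have htr1 : tr (1 : Oct K) = 1 := by
    rw [htr, one0, one1]
    field_simp
    norm_num
  let f : Oct K →ₗ[K] Oct K := tr.smulRight (1 : Oct K) + T.comp (LinearMap.id - tr.smulRight (1 : Oct K))
  have hf : ∀ z, f z = tr z • (1 : Oct K) + T (z - tr z • (1 : Oct K)) := fun z => rfl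
  have hfIm : ∀ z, Im z → f z = T z := by
    intro z hz
    rw [hf, htr0 z hz, zero_smul, zero_add, sub_zero]
  have hf1 : f 1 = 1 := by
    rw [hf, htr1, one_smul, sub_self, map_zero, add_zero]
  have hdec : ∀ z : Oct K, z = tr z • (1 : Oct K) + (z - tr z • (1 : Oct K)) := by
    intro z; abel
  have hinj : Function.Injective f := by
    rw [← LinearMap.ker_eq_bot, LinearMap.ker_eq_bot']
    intro z hz
    rw [hf] at hz
    have h3 : tr z = 0 := by
      have h4 := congrArg tr hz
      rw [map_add, map_smul, htr1, htr0 _ (hI _ (hIm' z)), map_zero, add_zero, smul_eq_mul,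
        mul_one] at h4
      exact h4
    rw [h3, zero_smul, zero_add, sub_zero] at hz
    have h5 := hIm' z
    rw [h3, zero_smul, sub_zero] at h5
    exact h0 z h5 hz
  -- products of imaginary elements
  have him : ∀ x y, Im x → Im y → f (x * y) = T x * T y := by
    intro x y hx hy
    have e1 := anti hx hy
    have e2 := anti (hI x hx) (hI y hy)
    rw [form h2 hI h0 hc hx hy] at e2
    have e3 : (2 : K) • (x * y) = (x * y - y * x) + (-(bB x y)) • (1 : Oct K) := by
      rw [← e1, two_smul]; abel
    have e4 : (2 : K) • (T x * T y) = (T x * T y - T y * T x) + (-(bB x y)) • (1 : Oct K) := by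
      rw [← e2, two_smul]; abel
    have e5 : (2 : K) • f (x * y) = (2 : K) • (T x * T y) := by
      rw [← map_smul, e3, map_add, map_smul, hf1, hfIm _ (im_comm x y), hc x y hx hy, e4]
    have e6 := congrArg (fun w => (2 : K)⁻¹ • w) e5
    simp only [smul_smul, inv_mul_cancel₀ h2, one_smul] at e6
    exact e6
  have hone : ∀ (r : K) (w : Oct K), (r • (1 : Oct K)) * w = r • w := by
    intro r w
    rw [smul_mul_assoc, one_mul]
  have hone' : ∀ (r : K) (w : Oct K), w * (r • (1 : Oct K)) = r • w := by
    intro r w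
    rw [mul_smul_comm, mul_one]
  have hmul : ∀ x y, f (x * y) = f x * f y := by
    intro x y
    have hx := hIm' x
    have hy := hIm' y
    have ex := hdec x
    have ey := hdec y
    generalize x - tr x • (1 : Oct K) = x' at ex hx
    generalize y - tr y • (1 : Oct K) = y' at ey hy
    generalize tr x = r at ex
    generalize tr y = s at ey
    subst ex
    subst ey
    rw [add_mul, mul_add, mul_add, hone, hone, hone']
    simp only [map_add, map_smul, hf1, him x' y' hx hy, hfIm x' hx, hfIm y' hy]
    rw [add_mul, mul_add, mul_add, hone, hone, hone']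
  refine ⟨LinearEquiv.ofInjectiveEndo f hinj, ?_, ?_⟩
  · intro x y
    exact hmul x y
  · intro x hx
    exact hfIm x hx

end Pool.Agent.Q13.HO.MAL
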